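import Mathlib

set_option autoImplicit false

open Set

namespace Pool.Agent.Lib.MP_ca1982_an

/-- r is within e of an integer -/
def Near (r e : ℝ) : Prop := ∃ m : ℤ, |r - m| ≤ e

theorem isClosed_near (e : ℝ) : IsClosed {r : ℝ | Near r e} := by
  have : {r : ℝ | Near r e} = {r : ℝ | ‖(r : UnitAddCircle)‖ ≤ e} := by
    ext r
    simp only [Near, mem_ofPred_eq, UnitAddCircle.norm_eq]
    exact ⟨fun ⟨m, hm⟩ => (round_le r m).trans hm, fun h => ⟨_, h⟩⟩
  rw [this]
  exact isClosed_le (continuous_norm.comp (AddCircle.continuous_mk' 1)) continuous_const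

/-- nested intervals -/
theorem nested (lam : ℕ → ℝ) (hlam : ∀ n, 0 ≤ lam n) (P : ℕ → ℝ → Prop)
    (step : ∀ n a, ∃ b, a ≤ b ∧ b + lam (n + 1) ≤ a + lam n ∧
      ∀ t ∈ Icc b (b + lam (n + 1)), P (n + 1) t) (a : ℝ) :
    ∃ t ∈ Icc a (a + lam 0), ∀ n, P (n + 1) t := by
  choose f hf using step
  let s : ℕ → ℝ := fun n => Nat.rec a (fun n b => f n b) n
  have hs : ∀ n, s (n + 1) = f n (s n) := fun n => rfl
  have hne := IsCompact.nonempty_iInter_of_sequence_nonempty_isCompact_isClosed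
    (fun n => Icc (s n) (s n + lam n))
    (fun n => by
      rw [hs]
      exact Icc_subset_Icc (hf n (s n)).1 (hf n (s n)).2.1)
    (fun n => ⟨s n, le_rfl, le_add_of_nonneg_right (hlam n)⟩) isCompact_Icc
    (fun n => isClosed_Icc)
  obtain ⟨t, ht⟩ := hne
  rw [mem_iInter] at ht
  exact ⟨t, ht 0, fun n => (hf n (s n)).2.2 t (ht (n + 1))⟩

/-- the frequencies -/
def fr : ℕ → ℝ
  | 0 => 2
  | j + 1 => 4 * ((j : ℝ) + 2) * ((j : ℝ) + 1) ^ 2 * fr j

theorem fr_ge (j : ℕ) : 2 ≤ fr j := by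
  induction j with
  | zero => exact le_rfl
  | succ j ih =>
    have h : (0 : ℝ) ≤ j := Nat.cast_nonneg j
    have h1 : (1 : ℝ) ≤ ((j : ℝ) + 1) ^ 2 := by nlinarith
    have h2 : (1 : ℝ) ≤ 4 * ((j : ℝ) + 2) * ((j : ℝ) + 1) ^ 2 := by nlinarith
    rw [fr]
    nlinarith

theorem fr_pos (j : ℕ) : 0 < fr j := lt_of_lt_of_le two_pos (fr_ge j)

theorem fr_int (j : ℕ) : ∃ m : ℤ, fr j = m := by
  induction j with
  | zero => exact ⟨2, by simp [fr]⟩
  | succ j ih =>
    obtain ⟨m, hm⟩ := ih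
    exact ⟨4 * (j + 2) * (j + 1) ^ 2 * m, by rw [fr, hm]; push_cast; ring⟩

/-- the interval lengths -/
noncomputable def lam (j : ℕ) : ℝ := 1 / (((j : ℝ) + 1) ^ 2 * fr j)

theorem lam_pos (j : ℕ) : 0 < lam j := by
  have := fr_pos j
  unfold lam
  positivity

theorem lam_le (j : ℕ) : lam j ≤ 1 / ((j : ℝ) + 1) := by
  have h : (0 : ℝ) ≤ j := Nat.cast_nonneg j
  have := fr_ge j
  unfold lam
  apply one_div_le_one_div_of_le (by positivity)
  nlinarith [mul_nonneg h h]

theorem lam_small {d : ℝ} (hd : 0 < d) (J : ℕ) : ∃ j, J ≤ j ∧ lam j < d := by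
  obtain ⟨n, hn⟩ := exists_nat_one_div_lt hd
  refine ⟨max J n, le_max_left _ _, lt_of_le_of_lt ((lam_le _).trans ?_) hn⟩
  apply one_div_le_one_div_of_le (by positivity)
  have : (n : ℝ) ≤ (max J n : ℕ) := by exact_mod_cast le_max_right _ _
  linarith

theorem lam_succ (j : ℕ) : 2 * lam (j + 1) ≤ lam j := by
  have h : (0 : ℝ) ≤ j := Nat.cast_nonneg j
  have hf := fr_pos j
  unfold lam
  rw [fr, mul_one_div, div_le_div_iff₀ (by positivity) (by positivity)]
  push_cast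
  have h0 : 0 < ((j : ℝ) + 1) ^ 2 * fr j := by positivity
  have h1 : (2 : ℝ) ≤ ((j : ℝ) + 1 + 1) ^ 2 * (4 * (j + 2)) := by nlinarith [mul_nonneg h h]
  nlinarith

/-- one step: an affine function of moderate speed comes close to an integer -/
theorem step_aff (α σ L l e a : ℝ) (hσ : 2 ≤ |σ| * L) (hl : 2 * l ≤ L)
    (he : |σ| * l ≤ e) (hl0 : 0 ≤ l) :
    ∃ b, a ≤ b ∧ b + l ≤ a + L ∧ ∀ t ∈ Icc b (b + l), Near (α + σ * t) e := by
  have hL : 0 ≤ L := by linarith
  have key : ∀ α σ : ℝ, 0 < σ → 2 ≤ σ * L → σ * l ≤ e →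
      ∃ b, a ≤ b ∧ b + l ≤ a + L ∧ ∀ t ∈ Icc b (b + l), Near (α + σ * t) e := by
    intro α σ h0 h1 h2
    have c1 := Int.le_ceil (α + σ * a)
    have c2 := Int.ceil_lt_add_one (α + σ * a)
    set m := ⌈α + σ * a⌉
    have hb : σ * ((m - α) / σ) = m - α := by field_simp
    refine ⟨(m - α) / σ, ?_, ?_, ?_⟩
    · rw [le_div_iff₀ h0]; linarith
    · have : (m - α) / σ ≤ a + L / 2 := by
        rw [div_le_iff₀ h0]; nlinarith
      linarith
    · intro t ht
      refine ⟨m, ?_⟩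
      have h3 := mul_le_mul_of_nonneg_left ht.1 h0.le
      have h4 := mul_le_mul_of_nonneg_left ht.2 h0.le
      rw [abs_le]
      constructor
      · nlinarith [mul_nonneg h0.le hl0]
      · nlinarith
  rcases lt_trichotomy σ 0 with h | h | h
  · rw [abs_of_neg h] at hσ he
    obtain ⟨b, h1, h2, h3⟩ := key (-α) (-σ) (by linarith) hσ he
    refine ⟨b, h1, h2, fun t ht => ?_⟩
    obtain ⟨m, hm⟩ := h3 t ht
    refine ⟨-m, ?_⟩
    rw [← abs_neg]
    convert hm using 2
    push_cast; ring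
  · subst h; norm_num at hσ
  · rw [abs_of_pos h] at hσ he
    exact key α σ h hσ he

/-- the direction (u, v) is transversal enough for the index j -/
def Trans (u v : ℝ) (j : ℕ) : Prop := 1 / (2 * ((j : ℝ) + 1)) ≤ |u + j * v|

/-- the main nested interval statement -/
theorem sweep (x y u v τ : ℝ) (hu : |u| ≤ 1) (hv : |v| ≤ 1) (J : ℕ) (a : ℝ) :
    ∃ t ∈ Icc a (a + lam J), ∀ j, J < j → Trans u v j →
      Near (fr j * ((x + t * u) + j * (y + t * v)) - τ) (1 / ((j : ℝ) + 1)) := by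
  obtain ⟨t, ht, h⟩ := nested (fun n => lam (J + n)) (fun n => (lam_pos _).le)
    (fun n t => Trans u v (J + n) →
      Near (fr (J + n) * ((x + t * u) + ((J + n : ℕ) : ℝ) * (y + t * v)) - τ)
        (1 / (((J + n : ℕ) : ℝ) + 1))) (by
      intro n a
      rw [← add_assoc]
      set j := J + n
      by_cases hT : Trans u v (j + 1)
      · have hj : (0 : ℝ) ≤ j := Nat.cast_nonneg j
        have hf := fr_pos j
        have hf1 := fr_pos (j + 1)
        have hA : 2 ≤ |fr (j + 1) * (u + ((j + 1 : ℕ) : ℝ) * v)| * lam j := by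
          rw [abs_mul, abs_of_pos hf1]
          have e : fr (j + 1) * (1 / (2 * (((j + 1 : ℕ) : ℝ) + 1))) * lam j = 2 := by
            rw [fr, lam]; push_cast; field_simp; ring
          rw [← e]
          have := lam_pos j
          unfold Trans at hT
          gcongr
        have hB : |fr (j + 1) * (u + ((j + 1 : ℕ) : ℝ) * v)| * lam (j + 1) ≤
            1 / (((j + 1 : ℕ) : ℝ) + 1) := by
          rw [abs_mul, abs_of_pos hf1]
          have e : fr (j + 1) * (((j + 1 : ℕ) : ℝ) + 1) * lam (j + 1) =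
              1 / (((j + 1 : ℕ) : ℝ) + 1) := by
            rw [lam]; field_simp
          rw [← e]
          have := lam_pos (j + 1)
          have hb : |u + ((j + 1 : ℕ) : ℝ) * v| ≤ ((j + 1 : ℕ) : ℝ) + 1 := by
            refine (abs_add_le _ _).trans ?_
            have : (0 : ℝ) ≤ ((j + 1 : ℕ) : ℝ) := Nat.cast_nonneg _
            rw [abs_mul, abs_of_nonneg this]
            nlinarith
          gcongr
        obtain ⟨b, h1, h2, h3⟩ := step_aff
          (fr (j + 1) * (x + ((j + 1 : ℕ) : ℝ) * y) - τ)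
          (fr (j + 1) * (u + ((j + 1 : ℕ) : ℝ) * v)) (lam j) (lam (j + 1))
          (1 / (((j + 1 : ℕ) : ℝ) + 1)) a hA (lam_succ j) hB (lam_pos _).le
        refine ⟨b, h1, h2, fun t ht _ => ?_⟩
        have e : fr (j + 1) * ((x + t * u) + ((j + 1 : ℕ) : ℝ) * (y + t * v)) - τ =
            fr (j + 1) * (x + ((j + 1 : ℕ) : ℝ) * y) - τ +
              fr (j + 1) * (u + ((j + 1 : ℕ) : ℝ) * v) * t := by ring
        have := h3 t ht
        rw [← e] at this
        exact this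
      · refine ⟨a, le_rfl, ?_, fun t _ h => absurd h hT⟩
        have := lam_succ j
        have := lam_pos (j + 1)
        linarith) a
  refine ⟨t, by simpa using ht, fun j hj hT => ?_⟩
  obtain ⟨n, rfl⟩ := Nat.exists_eq_add_of_lt hj
  exact h n hT

/-- at most one index fails to be transversal -/
theorem trans_unique (u v : ℝ) (h : |u| = 1 ∨ |v| = 1) (i j : ℕ) (hij : i < j) :
    Trans u v i ∨ Trans u v j := by
  by_contra hc
  push Not at hc
  obtain ⟨h1, h2⟩ := hc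
  unfold Trans at h1 h2
  push Not at h1 h2
  have hi : (0 : ℝ) ≤ i := Nat.cast_nonneg i
  have hij' : (i : ℝ) + 1 ≤ j := by exact_mod_cast hij
  set c : ℝ := 1 / (2 * ((i : ℝ) + 1)) with hc
  have hc1 : c * (2 * ((i : ℝ) + 1)) = 1 := by rw [hc]; field_simp
  have hc0 : 0 < c := by positivity
  have h3 : 1 / (2 * ((j : ℝ) + 1)) ≤ c :=
    one_div_le_one_div_of_le (by positivity) (by linarith)
  have h4 : |u + j * v| < c := h2.trans_le h3
  have h5 : |v| < 2 * c := by
    have e : ((j : ℝ) - i) * v = (u + j * v) - (u + i * v) := by ring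
    have : |((j : ℝ) - i) * v| < 2 * c := by
      rw [e]; exact (abs_sub _ _).trans_lt (by linarith)
    rw [abs_mul, abs_of_pos (by linarith : (0 : ℝ) < j - i)] at this
    nlinarith [abs_nonneg v]
  have h6 : |u| < c + i * (2 * c) + c := by
    have e : u = (u + i * v) - i * v := by ring
    have : |u| ≤ |u + i * v| + |(i : ℝ) * v| := by
      conv_lhs => rw [e]
      exact abs_sub _ _
    rw [abs_mul, abs_of_nonneg hi] at this
    nlinarith [mul_le_mul_of_nonneg_left h5.le hi]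
  rcases h with h | h
  · nlinarith
  · nlinarith

/-- one coordinate of a chord -/
theorem chord1 (x s : ℝ) (hx : x ∈ Icc (0 : ℝ) 1) (hs : |s| ≤ 1) :
    ∃ a b : ℝ, a ≤ 0 ∧ 0 ≤ b ∧ 1 ≤ b - a ∧ (∀ t ∈ Icc a b, x + t * s ∈ Icc (0 : ℝ) 1) ∧
      (a ≤ -1 ∨ ∃ m : ℤ, x + a * s = m) ∧ (1 ≤ b ∨ ∃ m : ℤ, x + b * s = m) := by
  obtain ⟨h0, h1⟩ := hx
  rcases lt_trichotomy s 0 with h | h | h
  · rw [abs_of_neg h] at hs
    have hp : 0 < -s := by linarith
    have hs0 : s ≠ 0 := h.ne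
    have ea : (x - 1) / (-s) * s = 1 - x := by field_simp; ring
    have eb : x / (-s) * s = -x := by field_simp
    refine ⟨(x - 1) / (-s), x / (-s), div_nonpos_of_nonpos_of_nonneg (by linarith) hp.le,
      div_nonneg h0 hp.le, ?_, ?_, Or.inr ⟨1, by rw [ea]; simp⟩, Or.inr ⟨0, by rw [eb]; simp⟩⟩
    · rw [← sub_div, le_div_iff₀ hp]; linarith
    · intro t ht
      constructor
      · nlinarith [mul_le_mul_of_nonneg_right ht.2 hp.le]
      · nlinarith [mul_le_mul_of_nonneg_right ht.1 hp.le]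
  · subst h
    exact ⟨-1, 1, by norm_num, by norm_num, by norm_num, fun t _ => by simp [h0, h1],
      Or.inl le_rfl, Or.inl le_rfl⟩
  · rw [abs_of_pos h] at hs
    have ea : (-x) / s * s = -x := by field_simp
    have eb : (1 - x) / s * s = 1 - x := by field_simp
    refine ⟨(-x) / s, (1 - x) / s, div_nonpos_of_nonpos_of_nonneg (by linarith) h.le,
      div_nonneg (by linarith) h.le, ?_, ?_, Or.inr ⟨0, by rw [ea]; simp⟩,
      Or.inr ⟨1, by rw [eb]; simp⟩⟩
    · rw [← sub_div, le_div_iff₀ h]; linarith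
    · intro t ht
      constructor
      · nlinarith [mul_le_mul_of_nonneg_right ht.1 h.le]
      · nlinarith [mul_le_mul_of_nonneg_right ht.2 h.le]

theorem close_end (x s a b c t : ℝ) (hs : |s| ≤ 1) (m : ℤ) (hc : c ∈ Icc a b) (ht : t ∈ Icc a b)
    (h : x + c * s = m) : |x + t * s - m| ≤ b - a := by
  have e : x + t * s - m = (t - c) * s := by rw [← h]; ring
  have h1 : |t - c| ≤ b - a := by
    rw [abs_le]; constructor <;> linarith [hc.1, hc.2, ht.1, ht.2]
  rw [e, abs_mul]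
  nlinarith [abs_nonneg (t - c), abs_nonneg s]

/-- a chord of the unit square is long or stays near an integer point -/
theorem chord (x y u v : ℝ) (hx : x ∈ Icc (0 : ℝ) 1) (hy : y ∈ Icc (0 : ℝ) 1) (hu : |u| ≤ 1)
    (hv : |v| ≤ 1) :
    ∃ a b : ℝ, a ≤ b ∧ (∀ t ∈ Icc a b, x + t * u ∈ Icc (0 : ℝ) 1 ∧ y + t * v ∈ Icc (0 : ℝ) 1) ∧
      (1 ≤ b - a ∨ ∃ m n : ℤ, ∀ t ∈ Icc a b, |x + t * u - m| ≤ b - a ∧ |y + t * v - n| ≤ b - a) := by
  obtain ⟨a1, b1, p1, q1, r1, s1, t1, w1⟩ := chord1 x u hx hu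
  obtain ⟨a2, b2, p2, q2, r2, s2, t2, w2⟩ := chord1 y v hy hv
  rcases le_total a1 a2 with ha | ha <;> rcases le_total b1 b2 with hb | hb
  · refine ⟨a2, b1, by linarith, fun t ht => ⟨s1 t ⟨by linarith [ht.1], ht.2⟩,
      s2 t ⟨ht.1, by linarith [ht.2]⟩⟩, ?_⟩
    rcases t2 with t2 | ⟨n, hn⟩
    · left; linarith
    rcases w1 with w1 | ⟨m, hm⟩
    · left; linarith
    exact Or.inr ⟨m, n, fun t ht => ⟨close_end x u a2 b1 b1 t hu m ⟨by linarith, le_rfl⟩ ht hm,
      close_end y v a2 b1 a2 t hv n ⟨le_rfl, by linarith⟩ ht hn⟩⟩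
  · exact ⟨a2, b2, by linarith, fun t ht => ⟨s1 t ⟨by linarith [ht.1], by linarith [ht.2]⟩,
      s2 t ht⟩, Or.inl r2⟩
  · exact ⟨a1, b1, by linarith, fun t ht => ⟨s1 t ht,
      s2 t ⟨by linarith [ht.1], by linarith [ht.2]⟩⟩, Or.inl r1⟩
  · refine ⟨a1, b2, by linarith, fun t ht => ⟨s1 t ⟨ht.1, by linarith [ht.2]⟩,
      s2 t ⟨by linarith [ht.1], ht.2⟩⟩, ?_⟩
    rcases t1 with t1 | ⟨m, hm⟩
    · left; linarith
    rcases w2 with w2 | ⟨n, hn⟩
    · left; linarith
    exact Or.inr ⟨m, n, fun t ht => ⟨close_end x u a1 b2 a1 t hu m ⟨le_rfl, by linarith⟩ ht hm,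
      close_end y v a1 b2 b2 t hv n ⟨by linarith, le_rfl⟩ ht hn⟩⟩

/-- the point (x, y) is good for the index j -/
def Good (j : ℕ) (x y : ℝ) : Prop := Near (fr j * (x + j * y)) (1 / ((j : ℝ) + 1))

theorem good_of_close (j : ℕ) (x y d : ℝ) (m n : ℤ) (hd : d ≤ lam j) (hx : |x - m| ≤ d)
    (hy : |y - n| ≤ d) : Good j x y := by
  obtain ⟨k, hk⟩ := fr_int j
  refine ⟨k * (m + j * n), ?_⟩
  have hf := fr_pos j
  have hj : (0 : ℝ) ≤ j := Nat.cast_nonneg j
  have e : fr j * (x + j * y) - ((k * (m + j * n) : ℤ) : ℝ) = fr j * ((x - m) + j * (y - n)) := by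
    push_cast; rw [← hk]; ring
  have e2 : fr j * (((j : ℝ) + 1) * lam j) = 1 / ((j : ℝ) + 1) := by
    rw [lam]; field_simp
  rw [e, abs_mul, abs_of_pos hf, ← e2]
  refine mul_le_mul_of_nonneg_left ((abs_add_le _ _).trans ?_) hf.le
  rw [abs_mul, abs_of_nonneg hj]
  nlinarith [mul_le_mul_of_nonneg_left (hy.trans hd) hj]

/-- all but at most two indices are good -/
def Fine (x y : ℝ) : Prop := ∀ i j k : ℕ, i < j → j < k → Good i x y ∨ Good j x y ∨ Good k x y

theorem meets_line (x y u v : ℝ) (hx : x ∈ Icc (0 : ℝ) 1) (hy : y ∈ Icc (0 : ℝ) 1) (hu : |u| ≤ 1)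
    (hv : |v| ≤ 1) (h1 : |u| = 1 ∨ |v| = 1) :
    ∃ t : ℝ, x + t * u ∈ Icc (0 : ℝ) 1 ∧ y + t * v ∈ Icc (0 : ℝ) 1 ∧
      Fine (x + t * u) (y + t * v) := by
  classical
  obtain ⟨a, b, hab, hin, hc⟩ := chord x y u v hx hy hu hv
  have hl0 : lam 0 < 1 := by norm_num [lam, fr]
  have early : ∀ t ∈ Icc a b, ∀ j, (∀ i ≤ j, b - a ≤ lam i) → Good j (x + t * u) (y + t * v) := by
    intro t ht j hj
    rcases hc with hc | ⟨m, n, hc⟩
    · have := hj 0 (Nat.zero_le _); linarith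
    · exact good_of_close j _ _ (b - a) m n (hj j le_rfl) (hc t ht).1 (hc t ht).2
  rcases hab.eq_or_lt with rfl | hlt
  · refine ⟨a, (hin a ⟨le_rfl, le_rfl⟩).1, (hin a ⟨le_rfl, le_rfl⟩).2, fun i j k _ _ => Or.inl ?_⟩
    exact early a ⟨le_rfl, le_rfl⟩ i (fun i _ => by simpa using (lam_pos i).le)
  have hex : ∃ j, lam j < b - a := by
    obtain ⟨j, -, hj⟩ := lam_small (sub_pos.2 hlt) 0
    exact ⟨j, hj⟩
  set J := Nat.find hex with hJ
  have hJ1 : lam J < b - a := Nat.find_spec hex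
  obtain ⟨t, ht, h⟩ := sweep x y u v 0 hu hv J a
  have ht' : t ∈ Icc a b := ⟨ht.1, by linarith [ht.2]⟩
  refine ⟨t, (hin t ht').1, (hin t ht').2, fun i j k hij hjk => ?_⟩
  have late : ∀ j, J < j → Trans u v j → Good j (x + t * u) (y + t * v) := by
    intro j hj hT
    simpa [Good] using h j hj hT
  by_cases hi : i < J
  · exact Or.inl (early t ht' i fun i' hi' => not_lt.1 (Nat.find_min hex (by omega)))
  rcases trans_unique u v h1 j k hjk with hT | hT
  · exact Or.inr (Or.inl (late j (by omega) hT))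
  · exact Or.inr (Or.inr (late k (by omega) hT))

/-- among 2l+1 indices one is good for all of l fine points -/
theorem common_good {l : ℕ} (x y : Fin l → ℝ) (h : ∀ m, Fine (x m) (y m)) (J : ℕ) :
    ∃ j, J < j ∧ ∀ m, Good j (x m) (y m) := by
  classical
  have hfin : ∀ m, {j | ¬ Good j (x m) (y m)}.Finite := by
    intro m
    by_contra hinf
    have hinf : {j | ¬ Good j (x m) (y m)}.Infinite := hinf
    obtain ⟨i, hi, -⟩ := hinf.exists_gt 0
    obtain ⟨j, hj, hij⟩ := hinf.exists_gt i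
    obtain ⟨k, hk, hjk⟩ := hinf.exists_gt j
    rcases h m i j k hij hjk with g | g | g
    exacts [hi g, hj g, hk g]
  obtain ⟨B, hB⟩ := (Set.finite_iUnion hfin).bddAbove
  refine ⟨max J B + 1, by omega, fun m => ?_⟩
  by_contra hc
  have := hB (mem_iUnion.2 ⟨m, hc⟩)
  omega

theorem near_sum {l : ℕ} (r : Fin l → ℝ) (e : ℝ) (h : ∀ m, Near (r m) e) :
    Near (∑ m, r m) (l * e) := by
  choose k hk using h
  refine ⟨∑ m, k m, ?_⟩
  push_cast
  rw [← Finset.sum_sub_distrib]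
  refine (Finset.abs_sum_le_sum_abs _ _).trans ?_
  refine (Finset.sum_le_sum fun m _ => hk m).trans ?_
  simp

theorem not_near_both (r e e' : ℝ) (h : e + e' < 1 / 2) (h1 : Near r e) (h2 : Near (r - 1 / 2) e') :
    False := by
  obtain ⟨m, hm⟩ := h1
  obtain ⟨n, hn⟩ := h2
  rw [abs_le] at hm hn
  have a1 : ((m - n : ℤ) : ℝ) < 1 := by push_cast; linarith [hm.1, hm.2, hn.1, hn.2]
  have a2 : (0 : ℝ) < ((m - n : ℤ) : ℝ) := by push_cast; linarith [hm.1, hm.2, hn.1, hn.2]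
  have b1 : m - n < 1 := by exact_mod_cast a1
  have b2 : 0 < m - n := by exact_mod_cast a2
  omega

/-- every horizontal segment holds a point that is no finite sum of fine points -/
theorem escape (x y d : ℝ) (hd : 0 < d) :
    ∃ t, 0 ≤ t ∧ t < d ∧ ∀ (l : ℕ) (p q : Fin l → ℝ), (∀ m, Fine (p m) (q m)) →
      ¬ (∑ m, p m = x + t ∧ ∑ m, q m = y) := by
  obtain ⟨J, -, hJ⟩ := lam_small hd 0
  obtain ⟨t, ht, h⟩ := sweep x y 1 0 (1 / 2) (by simp) (by simp) J 0
  refine ⟨t, ht.1, by linarith [ht.2], fun l p q hf ⟨hp, hq⟩ => ?_⟩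
  obtain ⟨j, hj, hg⟩ := common_good p q hf (J + 2 * l + 2)
  have hj0 : (0 : ℝ) ≤ j := Nat.cast_nonneg j
  have hT : Trans 1 0 j := by
    unfold Trans
    rw [mul_zero, add_zero, abs_one, div_le_one (by positivity)]
    linarith
  have h2 := h j (by omega) hT
  have h1 := near_sum (fun m => fr j * (p m + j * q m)) _ hg
  rw [← Finset.mul_sum, Finset.sum_add_distrib, ← Finset.mul_sum, hp, hq] at h1
  simp only [mul_one, mul_zero, add_zero] at h2
  refine not_near_both _ _ _ ?_ h1 h2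
  have hl : (2 * l + 2 : ℝ) < j := by
    have : 2 * l + 2 < j := by omega
    exact_mod_cast this
  rw [mul_one_div, ← add_div, div_lt_div_iff₀ (by positivity) (by positivity)]
  linarith

theorem isClosed_fine : IsClosed {p : EuclideanSpace ℝ (Fin 2) | Fine (p 0) (p 1)} := by
  have hg : ∀ j : ℕ, IsClosed {p : EuclideanSpace ℝ (Fin 2) | Good j (p 0) (p 1)} := fun j =>
    (isClosed_near _).preimage
      (f := fun p : EuclideanSpace ℝ (Fin 2) => fr j * (p 0 + j * p 1)) (by fun_prop)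
  have : {p : EuclideanSpace ℝ (Fin 2) | Fine (p 0) (p 1)} =
      ⋂ i, ⋂ j, ⋂ k, ⋂ (_ : i < j), ⋂ (_ : j < k),
        ({p : EuclideanSpace ℝ (Fin 2) | Good i (p 0) (p 1)} ∪
          ({p | Good j (p 0) (p 1)} ∪ {p | Good k (p 0) (p 1)})) := by
    ext p
    simp [Fine]
  rw [this]
  exact isClosed_iInter fun i => isClosed_iInter fun j => isClosed_iInter fun k =>
    isClosed_iInter fun _ => isClosed_iInter fun _ => (hg i).union ((hg j).union (hg k))

theorem isCompact_square :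
    IsCompact {p : EuclideanSpace ℝ (Fin 2) | ∀ i, p i ∈ Icc (0 : ℝ) 1} := by
  apply Metric.isCompact_of_isClosed_isBounded
  · have : {p : EuclideanSpace ℝ (Fin 2) | ∀ i, p i ∈ Icc (0 : ℝ) 1} =
        ⋂ i, (fun p : EuclideanSpace ℝ (Fin 2) => p i) ⁻¹' Icc (0 : ℝ) 1 := by
      ext p; simp
    rw [this]
    exact isClosed_iInter fun i => isClosed_Icc.preimage (by fun_prop)
  · refine (Metric.isBounded_closedBall (x := (0 : EuclideanSpace ℝ (Fin 2))) (r := 2)).subset ?_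
    intro p hp
    rw [mem_closedBall_zero_iff, EuclideanSpace.norm_eq, Real.sqrt_le_left (by norm_num),
      Fin.sum_univ_two]
    have h0 := hp 0
    have h1 := hp 1
    simp only [Real.norm_eq_abs, sq_abs]
    nlinarith [h0.1, h0.2, h1.1, h1.2]

theorem main : ∃ K : Set (EuclideanSpace ℝ (Fin 2)), IsCompact K ∧
    K ⊆ {p | ∀ i, p i ∈ Icc (0 : ℝ) 1} ∧
    (∀ L : AffineSubspace ℝ (EuclideanSpace ℝ (Fin 2)), Module.finrank ℝ L.direction = 1 →
      ((L : Set (EuclideanSpace ℝ (Fin 2))) ∩ {p | ∀ i, p i ∈ Icc (0 : ℝ) 1}).Nonempty →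
      ((L : Set (EuclideanSpace ℝ (Fin 2))) ∩ K).Nonempty) ∧
    ∀ l : ℕ, IsNowhereDense
      {y | ∃ x : Fin l → EuclideanSpace ℝ (Fin 2), (∀ m, x m ∈ K) ∧ ∑ m, x m = y} := by
  have hK := isCompact_square.inter_right isClosed_fine
  refine ⟨_, hK, inter_subset_left, ?_, ?_⟩
  · rintro L hL ⟨p, hpL, hpQ⟩
    have : Nontrivial L.direction := Module.nontrivial_of_finrank_pos (R := ℝ) (by omega)
    obtain ⟨⟨w, hw⟩, hw0⟩ := exists_ne (0 : L.direction)
    have hw0' : w ≠ 0 := fun h => hw0 (Subtype.ext h)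
    set c := max |w 0| |w 1| with hc
    have hc0 : 0 < c := by
      by_contra hh
      push Not at hh
      apply hw0'
      have a0 : |w 0| ≤ 0 := (le_max_left _ _).trans hh
      have a1 : |w 1| ≤ 0 := (le_max_right _ _).trans hh
      ext i
      fin_cases i
      · simpa using a0
      · simpa using a1
    obtain ⟨t, h0, h1, h2⟩ := meets_line (p 0) (p 1) (w 0 / c) (w 1 / c) (hpQ 0) (hpQ 1)
      (by rw [abs_div, abs_of_pos hc0, div_le_one hc0]; exact le_max_left _ _)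
      (by rw [abs_div, abs_of_pos hc0, div_le_one hc0]; exact le_max_right _ _)
      (by
        rw [abs_div, abs_div, abs_of_pos hc0, div_eq_one_iff_eq hc0.ne', div_eq_one_iff_eq hc0.ne']
        rcases max_choice |w 0| |w 1| with h | h
        · left; rw [hc, h]
        · right; rw [hc, h])
    have e0 : ((t / c) • w +ᵥ p) 0 = p 0 + t * (w 0 / c) := by simp; ring
    have e1 : ((t / c) • w +ᵥ p) 1 = p 1 + t * (w 1 / c) := by simp; ring
    refine ⟨(t / c) • w +ᵥ p,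
      AffineSubspace.vadd_mem_of_mem_direction (L.direction.smul_mem _ hw) hpL, ?_, ?_⟩
    · intro i
      fin_cases i
      · exact e0 ▸ h0
      · exact e1 ▸ h1
    · change Fine (((t / c) • w +ᵥ p) 0) (((t / c) • w +ᵥ p) 1)
      rw [e0, e1]; exact h2
  · intro l
    set K := {p : EuclideanSpace ℝ (Fin 2) | ∀ i, p i ∈ Icc (0 : ℝ) 1} ∩
      {p : EuclideanSpace ℝ (Fin 2) | Fine (p 0) (p 1)} with hKdef
    have hcomp : IsCompact
        {y | ∃ x : Fin l → EuclideanSpace ℝ (Fin 2), (∀ m, x m ∈ K) ∧ ∑ m, x m = y} := by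
      have := (isCompact_univ_pi fun _ : Fin l => hK).image
        (f := fun x : Fin l → EuclideanSpace ℝ (Fin 2) => ∑ m, x m) (by fun_prop)
      convert this using 1
      ext y
      simp [hKdef]
    rw [hcomp.isClosed.isNowhereDense_iff, eq_empty_iff_forall_notMem]
    intro z hz
    obtain ⟨d, hd, hb⟩ := Metric.mem_nhds_iff.1 (mem_interior_iff_mem_nhds.1 hz)
    obtain ⟨t, t0, t1, ht⟩ := escape (z 0) (z 1) d hd
    have hm : z + EuclideanSpace.single 0 t ∈ Metric.ball z d := by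
      simp [abs_of_nonneg t0, t1]
    obtain ⟨x, hx, hs⟩ := hb hm
    refine ht l (fun m => x m 0) (fun m => x m 1) (fun m => (hx m).2) ⟨?_, ?_⟩
    · have := congrArg (fun p : EuclideanSpace ℝ (Fin 2) => p 0) hs
      simpa using this
    · have := congrArg (fun p : EuclideanSpace ℝ (Fin 2) => p 1) hs
      simpa using this

end Pool.Agent.Lib.MP_ca1982_an
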